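import Mathlib
import Pool.Agent.K4H54.PT.Gen

/-!
# Reduction of all Tate classes at one point
-/

set_option autoImplicit false
set_option linter.unusedSectionVars false

namespace Pool.Agent.K4H10.DQ

open Matrix Module Pool.Agent.K4H35.TN Pool.Agent.K4H54.PT

noncomputable section

/-- A vector space of finite dimension over an uncountable field is not a union of countably many
proper subspaces. -/
theorem exists_eq_top {K V S : Type*} [Field K] [Uncountable K] [AddCommGroup V] [Module K V]
    [FiniteDimensional K V] [Countable S] (W : S → Submodule K V) (h : ∀ v, ∃ s, v ∈ W s) :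
    ∃ s, W s = ⊤ := by
  classical
  by_contra hne
  push Not at hne
  let b := finBasis K V
  let v : K → V := fun t => ∑ i : Fin (finrank K V), t ^ (i : ℕ) • b i
  have hfin : ∀ s, {t : K | v t ∈ W s}.Finite := by
    intro s
    obtain ⟨f, hf, hker⟩ := (W s).exists_le_ker_of_lt_top (lt_top_iff_ne_top.2 (hne s))
    let p : Polynomial K := ∑ i : Fin (finrank K V), Polynomial.C (f (b i)) * Polynomial.X ^ (i : ℕ)
    have hp : p ≠ 0 := by
      intro h0
      apply hf
      refine b.ext fun i => ?_
      have h1 := congrArg (fun r => Polynomial.coeff r (i : ℕ)) h0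
      simp only [p, Polynomial.finsetSum_coeff, Polynomial.coeff_C_mul, Polynomial.coeff_X_pow,
        Polynomial.coeff_zero] at h1
      rw [Finset.sum_eq_single i] at h1
      · simpa using h1
      · intro j _ hj
        rw [if_neg, mul_zero]
        intro h2
        exact hj (Fin.ext h2.symm)
      · intro h2
        exact absurd (Finset.mem_univ _) h2
    refine (p.roots.toFinset.finite_toSet).subset fun t ht => ?_
    rw [Finset.mem_coe, Multiset.mem_toFinset, Polynomial.mem_roots hp]
    have h1 : f (v t) = 0 := hker ht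
    change Polynomial.eval t p = 0
    rw [← h1]
    simp only [p, v, Polynomial.eval_finsetSum, map_sum, map_smul, smul_eq_mul,
      Polynomial.eval_mul, Polynomial.eval_C, Polynomial.eval_pow, Polynomial.eval_X]
    exact Finset.sum_congr rfl fun i _ => mul_comm _ _
  have hU : (Set.univ : Set K) = ⋃ s, {t : K | v t ∈ W s} := by
    symm
    rw [Set.eq_univ_iff_forall]
    intro t
    obtain ⟨s, hs⟩ := h (v t)
    exact Set.mem_iUnion.2 ⟨s, hs⟩
  have hc : (Set.univ : Set K).Countable := by
    rw [hU]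
    exact Set.countable_iUnion fun s => (hfin s).countable
  exact not_countable (Set.countable_univ_iff.1 hc)

variable {T E : Type} [Field E]

/-- The Tate classes on `X ^ m` as a subspace. -/
def tates (X : Cohomology T E) (m : ℕ) : Submodule E (Matrix (X.pow m).ι (X.pow 0).ι E) where
  carrier := {F | IsCorrespondence (X.pow 0) (X.pow m) F}
  zero_mem' := fun θ => by rw [Matrix.mul_zero, Matrix.zero_mul]
  add_mem' := fun {F G} hF hG θ => by rw [Matrix.mul_add, Matrix.add_mul, hF θ, hG θ]
  smul_mem' := fun r F hF θ => by rw [Matrix.mul_smul, Matrix.smul_mul, hF θ]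

theorem tateDim_eq_tates (X : Cohomology T E) (m : ℕ) : tateDim X m = finrank E (tates X m) := by
  have h1 : Submodule.span E {F : Matrix (X.pow m).ι (X.pow 0).ι E |
      IsCorrespondence (X.pow 0) (X.pow m) F} = tates X m :=
    le_antisymm (Submodule.span_le.2 fun F hF => hF) fun F hF => Submodule.subset_span hF
  unfold tateDim
  rw [h1]

theorem tateDim_pos {X : Cohomology T E} {q : Matrix X.ι X.ι E} {pt : X.ι → E}
    (hq : IsPoincare X q pt) (m : ℕ) : 0 < tateDim X m := by
  rw [tateDim_eq_tates, Module.finrank_pos_iff]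
  have hone : X.one ≠ 0 := by
    intro h
    apply hq.pairing
    rw [h, zero_dotProduct]
  obtain ⟨i, hi⟩ := Function.ne_iff.1 hone
  refine Submodule.nontrivial_iff_ne_bot.2 ?_
  rw [Submodule.ne_bot_iff]
  refine ⟨Matrix.of fun u _ => (X.pow m).one u, ?_, ?_⟩
  · intro θ
    ext u w
    have h1 : ∀ j, ∑ l, X.act θ j l * X.one l = X.one j := fun j => congrFun (hq.one_tate θ) j
    have h0 : (X.pow 0).act θ w w = 1 :=
      Fin.prod_univ_zero (fun k : Fin 0 => X.act θ ((w : Fin 0 → X.ι) k) ((w : Fin 0 → X.ι) k))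
    rw [Matrix.mul_apply, Matrix.mul_apply]
    have hR : ∑ j, (Matrix.of fun (u : (X.pow m).ι) (_ : (X.pow 0).ι) => (X.pow m).one u) u j *
        (X.pow 0).act θ j w = (X.pow m).one u := by
      have hsub : Subsingleton (X.pow 0).ι := inferInstanceAs (Subsingleton (Fin 0 → X.ι))
      rw [Fintype.sum_subsingleton _ w, h0, mul_one]
      rfl
    rw [hR]
    change ∑ j : Fin m → X.ι, (∏ k, X.act θ (u k) (j k)) * (∏ k, X.one (j k)) = ∏ k, X.one (u k)
    have h2 : ∀ j : Fin m → X.ι, (∏ k, X.act θ (u k) (j k)) * (∏ k, X.one (j k)) =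
        ∏ k, (X.act θ (u k) (j k) * X.one (j k)) := fun j => Finset.prod_mul_distrib.symm
    simp only [h2]
    rw [← Fintype.piFinset_univ, ← Finset.prod_univ_sum (fun _ => Finset.univ)
      (fun k l => X.act θ (u k) l * X.one l)]
    exact Finset.prod_congr rfl fun k _ => h1 (u k)
  · intro h
    have h1 := congrFun (congrFun h (fun _ => i)) (Fin.elim0 : Fin 0 → X.ι)
    have h2 : ∏ _k : Fin m, X.one i = 0 := h1
    rw [Finset.prod_eq_zero_iff] at h2
    obtain ⟨-, -, h3⟩ := h2
    exact hi h3

/-- If the classes on `X ^ m` are covered by countably many closed classes of correspondences then one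
of them contains all. -/
theorem exists_all [Uncountable E] (X : Cohomology T E) {S : Type} [Countable S]
    (P : S → ∀ a c : ℕ, Matrix (X.pow c).ι (X.pow a).ι E → Prop) (m : ℕ)
    (h : ∀ F : Matrix (X.pow m).ι (X.pow 0).ι E, IsCorrespondence (X.pow 0) (X.pow m) F →
      ∃ s, P s 0 m F) : ∃ s, classDim X (P s) m = tateDim X m := by
  let A : S → Submodule E (Matrix (X.pow m).ι (X.pow 0).ι E) := fun s =>
    Submodule.span E {F | IsCorrespondence (X.pow 0) (X.pow m) F ∧ P s 0 m F}
  obtain ⟨s, hs⟩ := exists_eq_top (K := E) (V := tates X m)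
    (fun s => (A s).comap (tates X m).subtype) (by
      intro v
      obtain ⟨s, hs⟩ := h v v.2
      exact ⟨s, Submodule.subset_span ⟨v.2, hs⟩⟩)
  refine ⟨s, ?_⟩
  rw [tateDim_eq_tates]
  have h1 : A s = tates X m := by
    apply le_antisymm
    · exact Submodule.span_le.2 fun F hF => hF.1
    · intro F hF
      have h2 : (⟨F, hF⟩ : tates X m) ∈ (A s).comap (tates X m).subtype := by
        rw [hs]; trivial
      exact h2
  change finrank E (A s) = _
  rw [h1]

/-- **One point for all Tate classes on all powers.** -/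
theorem one_point [CharZero E] [Uncountable E] (X : Cohomology T E)
    (hX : ∀ n, IsSemisimple (X.pow n)) (q : Matrix X.ι X.ι E) (pt : X.ι → E)
    (hq : IsPoincare X q pt) (ε : ℝ) (hε : 0 < ε) (hε' : ε < 1 / 2) :
    ∃ M : ℕ, ∀ (S : Type) [Countable S]
      (P : S → ∀ a c : ℕ, Matrix (X.pow c).ι (X.pow a).ι E → Prop) (d : X.ι → ℕ),
      (∀ s, IsClosed X (P s)) → (∀ s, Planar X (P s) q pt) → (∀ s, Symmetric X (P s) q d) →
      ∀ m, M ≤ m →
        ((∀ F : Matrix (X.pow m).ι (X.pow 0).ι E, IsCorrespondence (X.pow 0) (X.pow m) F →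
            ∃ s, P s 0 m F) ↔
          ∃ s, ∀ (a c : ℕ) (F : Matrix (X.pow c).ι (X.pow a).ι E),
            IsCorrespondence (X.pow a) (X.pow c) F → P s a c F) ∧
        ((∃ s, (1 / 2 + ε) * (tateDim X m : ℝ) < classDim X (P s) m) ↔
          ∃ s, ∀ (a c : ℕ) (F : Matrix (X.pow c).ι (X.pow a).ι E),
            IsCorrespondence (X.pow a) (X.pow c) F → P s a c F) := by
  obtain ⟨M, hM⟩ := law X hX q pt hq ε hε
  refine ⟨M, fun S _ P d hP hc hs m hm => ?_⟩
  have hpos : (0 : ℝ) < tateDim X m := by exact_mod_cast tateDim_pos hq m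
  have hmaj : ∀ s, classDim X (P s) m = tateDim X m →
      (1 / 2 + ε) * (tateDim X m : ℝ) < classDim X (P s) m := by
    intro s h
    rw [h]
    nlinarith
  have hall : ∀ s, (∀ (a c : ℕ) (F : Matrix (X.pow c).ι (X.pow a).ι E),
      IsCorrespondence (X.pow a) (X.pow c) F → P s a c F) →
      classDim X (P s) m = tateDim X m := by
    intro s h
    have h1 : {F : Matrix (X.pow m).ι (X.pow 0).ι E |
        IsCorrespondence (X.pow 0) (X.pow m) F ∧ P s 0 m F} =
        {F | IsCorrespondence (X.pow 0) (X.pow m) F} :=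
      Set.ext fun F => ⟨fun hF => hF.1, fun hF => ⟨hF, h 0 m F hF⟩⟩
    unfold classDim tateDim
    rw [h1]
  refine ⟨⟨fun h => ?_, fun ⟨s, h⟩ F hF => ⟨s, h 0 m F hF⟩⟩,
    ⟨fun ⟨s, h⟩ => ⟨s, hM (P s) (hP s) d (hc s) (hs s) m hm h⟩,
      fun ⟨s, h⟩ => ⟨s, hmaj s (hall s h)⟩⟩⟩
  obtain ⟨s, hs'⟩ := exists_all X P m h
  exact ⟨s, hM (P s) (hP s) d (hc s) (hs s) m hm (hmaj s hs')⟩

end

end Pool.Agent.K4H10.DQ
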